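import Pool.Agent.Q89.NM.Norm

/-!
# A copy of the injective envelope may norm more than the algebra

The algebra `A` is the algebra of convergent sequences, acting on `ℓ²(ℕ) ⊕ ℂ²` by
`a ↦ M_a ⊕ (lim a) 1`. Its injective envelope is `ℓ^∞(ℕ)`, and
`j(f) = M_f ⊕ diag(χ₀(f), χ₁(f))`, for two different ultralimits `χ₀`, `χ₁`, is a completely
isometric copy of it in `B(H)`. The copy interpolates all finite sets of diagonal values, so it
norms `B(H)`; the algebra `A` acts by scalars on `ℂ²` and does not norm `M₂(B(H))`.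
-/

set_option autoImplicit false

namespace Pool.Agent.Results.MP_dad682_an.EnvelopeNorms

open Q89.NM

universe u

/-- There are C*-algebras `A ⊆ B ⊆ B(H)` such that some completely isometric copy of the injective
envelope of `A` in `B(H)` norms `B`, while `A` does not norm `B`. -/
theorem result : ∃ (H : Type) (_ : NormedAddCommGroup H) (_ : InnerProductSpace ℂ H)
    (_ : CompleteSpace H) (A B : Set (H →L[ℂ] H)),
    IsCStar A ∧ IsCStar B ∧ A ⊆ B ∧ CopyNorms.{u} A B ∧ ¬ Norms A B := by
  refine ⟨Q89.HH J, inferInstance, inferInstance, inferInstance, AA, Set.univ, isCStar_AA,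
    ⟨isClosed_univ, trivial, fun _ _ _ _ => trivial, fun _ _ _ => trivial, fun _ _ _ _ => trivial,
    fun _ _ => trivial⟩, Set.subset_univ _,
    ⟨Q89.HH ℕ, inferInstance, inferInstance, inferInstance, MulAlg ℕ, io, jf,
    ⟨isInjectiveEnvelope, jf_lin, jf_CI, jf_io⟩, ?_⟩, not_norms⟩
  rw [← range_jm]
  exact norms_jm

end Pool.Agent.Results.MP_dad682_an.EnvelopeNorms
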